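import Pool.Agent.H284Z.Lin.Main

set_option autoImplicit false

namespace Pool.Agent.Results.MP_236854_co.AExplicit

open Pool.Agent.H284Z.Lin

/-- The set of lineons is cut out of `[0,1]^𝓜` by a computable sequence of polynomial
inequalities with rational coefficients. -/
theorem result : ∃ f : ℕ → Code, Computable f ∧
    ∀ x : Mod → ℝ, (∀ c, x c ∈ Set.Icc (0 : ℝ) 1) →
      (IsLineon x ↔ ∀ i : ℕ, 0 ≤ MvPolynomial.aeval x (toPoly (f i))) :=
  main

end Pool.Agent.Results.MP_236854_co.AExplicit
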